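import Pool.Agent.E8helper15.FT.Stm2
import Pool.Agent.E8helper54.FT.Iter

/-!
# Project FT, piece ITER2: one step with the map `big`
-/

set_option autoImplicit false

namespace Pool.Agent.E8helper3.FT

open NumberField IsDedekindDomain
open Pool.Agent.E8helper15.FT
open Pool.Agent.E8helper54.FT (log_nn norm_ne log_lrad supp_fin lt_one)
open Height

variable {K : Type} [Field K] [NumberField K]

/-- the primes at which `y` has positive order -/
lemma exists_W (h2 : S_SUP) {y : K} (hy : y ≠ 0) :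
    ∃ W : Finset (HeightOneSpectrum (𝓞 K)), (∀ v, v.valuation K y < 1 → v ∈ W) ∧
      ∑ v ∈ W, Real.log (Ideal.absNorm v.asIdeal) ≤ logHeight₁ y := by
  classical
  obtain ⟨hW0, hW⟩ := h2 K y hy
  refine ⟨hW0.toFinset.filter (fun v => v.valuation K y < 1), ?_, ?_⟩
  · intro v hv
    rw [Finset.mem_filter, Set.Finite.mem_toFinset]
    exact ⟨hv.ne, hv⟩
  · have := hW 1 le_rfl (hW0.toFinset.filter (fun v => v.valuation K y < 1)) (fun v hv => by
      have h3 := (Finset.mem_filter.1 hv).2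
      have h4 : v.valuation K y ≠ 0 := (Valuation.ne_zero_iff _).2 hy
      exact lt_one h4 h3)
    rwa [Nat.cast_one, one_mul] at this

/-- the height of `big t` -/
lemma height_big : ∃ c : ℝ, ∀ t : K, t ^ 2 ≠ 1 → 8 * logHeight₁ t ≤ logHeight₁ (big t) + c := by
  set D : ℝ := (totalWeight K : ℝ) * Real.log 2 with hD
  have hone : logHeight₁ (1 : K) = 0 := logHeight₁_one
  refine ⟨10 * D + 4 * logHeight₁ (2 : K), fun t ht => ?_⟩
  have h1t : 1 - t ^ 2 ≠ 0 := sub_ne_zero.2 (Ne.symm ht)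
  set r : K := 2 * t / (1 - t ^ 2) with hr
  set z : K := (1 + t ^ 2) / (1 - t ^ 2) with hz
  have e0 : logHeight₁ (big t) = 4 * logHeight₁ r := by
    unfold big
    rw [← hr]
    have := logHeight₁_pow r 4
    rw [this]; norm_num
  have e1 : z ^ 2 = 1 + r ^ 2 := by
    rw [hz, hr]; field_simp; ring
  have e2 : 2 * logHeight₁ z ≤ D + 2 * logHeight₁ r := by
    have h3 := logHeight₁_pow z 2
    have h4 := logHeight₁_pow r 2
    have h5 := logHeight₁_add_le (1 : K) (r ^ 2)
    rw [← e1, h3, h4, hone] at h5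
    push_cast at h5
    linarith
  have hz1 : z + 1 ≠ 0 := by
    have : z + 1 = 2 / (1 - t ^ 2) := by rw [hz]; field_simp; ring
    rw [this]
    exact div_ne_zero two_ne_zero h1t
  have e3 : t ^ 2 = 1 - 2 * (z + 1)⁻¹ := by
    have : z + 1 = 2 / (1 - t ^ 2) := by rw [hz]; field_simp; ring
    rw [this, inv_div]
    field_simp
    ring
  have e4 : 2 * logHeight₁ t ≤ 2 * D + logHeight₁ (2 : K) + logHeight₁ z := by
    have h3 := logHeight₁_pow t 2
    have h4 := logHeight₁_sub_le (1 : K) (2 * (z + 1)⁻¹)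
    rw [← e3, h3, hone] at h4
    have h5 := logHeight₁_mul_le (2 : K) ((z + 1)⁻¹)
    rw [logHeight₁_inv] at h5
    have h6 := logHeight₁_add_le z (1 : K)
    rw [hone] at h6
    push_cast at h4
    linarith
  rw [e0]
  linarith

/-- the radical of `big t` -/
lemma lrad_big (h2 : S_SUP) : ∃ c : ℝ, ∀ t : K, t ≠ 0 → t ^ 2 ≠ 1 → big t ≠ 1 →
    Real.log (lrad (big t)) ≤ Real.log (lrad t) + 7 * logHeight₁ t + c := by
  set D : ℝ := (totalWeight K : ℝ) * Real.log 2 with hD
  have hone : logHeight₁ (1 : K) = 0 := logHeight₁_one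
  obtain ⟨hV2, -⟩ := h2 K 2 two_ne_zero
  refine ⟨∑ v ∈ hV2.toFinset, Real.log (Ideal.absNorm v.asIdeal) + 8 * D +
    2 * logHeight₁ (2 : K), ?_⟩
  intro t h0 ht hb1
  have h1t : 1 - t ^ 2 ≠ 0 := sub_ne_zero.2 (Ne.symm ht)
  have ht1 : t ≠ 1 := by rintro rfl; exact ht (one_pow 2)
  have hyA : 1 + t ≠ 0 := by
    intro h; apply h1t
    linear_combination (1 - t) * h
  have hb0 : big t ≠ 0 := by
    unfold big
    exact pow_ne_zero _ (div_ne_zero (mul_ne_zero two_ne_zero h0) h1t)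
  have e1 : 1 - big t = (1 - 2 * t - t ^ 2) * (1 + 2 * t - t ^ 2) * (1 + t ^ 2) ^ 2 /
      ((1 - t) ^ 4 * (1 + t) ^ 4) := by
    have h3 : (1 - t) ^ 4 * (1 + t) ^ 4 = (1 - t ^ 2) ^ 4 := by ring
    rw [h3]; unfold big; field_simp; ring
  have e2 : big t = 2 ^ 4 * t ^ 4 / ((1 - t) ^ 4 * (1 + t) ^ 4) := by
    have h3 : (1 - t) ^ 4 * (1 + t) ^ 4 = (1 - t ^ 2) ^ 4 := by ring
    rw [h3]; unfold big; rw [div_pow, mul_pow]
  have hne : 1 - big t ≠ 0 := sub_ne_zero.2 (Ne.symm hb1)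
  have hyB : 1 + t ^ 2 ≠ 0 := by
    intro h; apply hne; rw [e1, h]; simp
  have hyC : 1 - 2 * t - t ^ 2 ≠ 0 := by
    intro h; apply hne; rw [e1, h]; simp
  have hyD : 1 + 2 * t - t ^ 2 ≠ 0 := by
    intro h; apply hne; rw [e1, h]; simp
  obtain ⟨WA, hA, sA⟩ := exists_W h2 hyA
  obtain ⟨WB, hB, sB⟩ := exists_W h2 hyB
  obtain ⟨WC, hC, sC⟩ := exists_W h2 hyC
  obtain ⟨WD, hDD, sD⟩ := exists_W h2 hyD
  have hF := supp_fin h2 h0 ht1
  have hF' := supp_fin h2 hb0 hb1
  rw [log_lrad hF, log_lrad hF']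
  classical
  have hsub : hF'.toFinset ⊆
      hF.toFinset ∪ (hV2.toFinset ∪ (WA ∪ (WB ∪ (WC ∪ WD)))) := by
    intro v hv
    rw [Set.Finite.mem_toFinset] at hv
    by_contra hcon
    simp only [Finset.mem_union, not_or, Set.Finite.mem_toFinset] at hcon
    obtain ⟨hn1, hn2, hnA, hnB, hnC, hnD⟩ := hcon
    have a1 : v.valuation K t = 1 ∧ v.valuation K (1 - t) = 1 := by
      by_contra h
      apply hn1
      by_cases hh : v.valuation K t = 1
      · exact Or.inr (fun h' => h ⟨hh, h'⟩)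
      · exact Or.inl hh
    have a2 : v.valuation K (2 : K) = 1 := by
      by_contra h
      exact hn2 h
    have o1 : v.valuation K (1 : K) ≤ 1 := by rw [map_one]
    have o2 : v.valuation K t ≤ 1 := a1.1.le
    have o3 : v.valuation K (t ^ 2) ≤ 1 := by rw [map_pow, a1.1, one_pow]
    have o4 : v.valuation K (2 * t) ≤ 1 := by rw [map_mul, a2, a1.1, one_mul]
    have qA : v.valuation K (1 + t) = 1 :=
      le_antisymm (Valuation.map_add_le _ o1 o2) (not_lt.1 fun h => hnA (hA v h))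
    have qB : v.valuation K (1 + t ^ 2) = 1 :=
      le_antisymm (Valuation.map_add_le _ o1 o3) (not_lt.1 fun h => hnB (hB v h))
    have qC : v.valuation K (1 - 2 * t - t ^ 2) = 1 :=
      le_antisymm (Valuation.map_sub_le _ (Valuation.map_sub_le _ o1 o4) o3)
        (not_lt.1 fun h => hnC (hC v h))
    have qD : v.valuation K (1 + 2 * t - t ^ 2) = 1 :=
      le_antisymm (Valuation.map_sub_le _ (Valuation.map_add_le _ o1 o4) o3)
        (not_lt.1 fun h => hnD (hDD v h))
    have a5 : v.valuation K (big t) = 1 := by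
      rw [e2, map_div₀, map_mul, map_mul, map_pow, map_pow, map_pow, map_pow, a2, a1.1, a1.2, qA]
      simp
    have a6 : v.valuation K (1 - big t) = 1 := by
      rw [e1, map_div₀, map_mul, map_mul, map_mul, map_pow, map_pow, map_pow, qC, qD, qB, a1.2, qA]
      simp
    rcases hv with h | h
    · exact h a5
    · exact h a6
  have hs1 : ∑ v ∈ hF'.toFinset, Real.log (Ideal.absNorm v.asIdeal) ≤
      ∑ v ∈ hF.toFinset ∪ (hV2.toFinset ∪ (WA ∪ (WB ∪ (WC ∪ WD)))),
        Real.log (Ideal.absNorm v.asIdeal) :=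
    Finset.sum_le_sum_of_subset_of_nonneg hsub (fun v _ _ => log_nn v)
  have hs2 : ∀ S T : Finset (HeightOneSpectrum (𝓞 K)),
      ∑ v ∈ S ∪ T, Real.log (Ideal.absNorm v.asIdeal) ≤
        ∑ v ∈ S, Real.log (Ideal.absNorm v.asIdeal) +
          ∑ v ∈ T, Real.log (Ideal.absNorm v.asIdeal) := by
    intro S T
    rw [← Finset.sum_union_inter]
    have : 0 ≤ ∑ v ∈ S ∩ T, Real.log (Ideal.absNorm v.asIdeal) :=
      Finset.sum_nonneg (fun v _ => log_nn v)
    linarith
  have hs3 := hs2 hF.toFinset (hV2.toFinset ∪ (WA ∪ (WB ∪ (WC ∪ WD))))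
  have hs4 := hs2 hV2.toFinset (WA ∪ (WB ∪ (WC ∪ WD)))
  have hs5 := hs2 WA (WB ∪ (WC ∪ WD))
  have hs6 := hs2 WB (WC ∪ WD)
  have hs7 := hs2 WC WD
  -- the heights
  have kA : logHeight₁ (1 + t) ≤ D + logHeight₁ t := by
    have := logHeight₁_add_le (1 : K) t
    rw [hone] at this; linarith
  have kA' : logHeight₁ (1 - t) ≤ D + logHeight₁ t := by
    have := logHeight₁_sub_le (1 : K) t
    rw [hone] at this; linarith
  have kB : logHeight₁ (1 + t ^ 2) ≤ D + 2 * logHeight₁ t := by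
    have := logHeight₁_add_le (1 : K) (t ^ 2)
    rw [hone, logHeight₁_pow] at this
    push_cast at this; linarith
  have kC : logHeight₁ (1 - 2 * t - t ^ 2) ≤ 3 * D + logHeight₁ (2 : K) + 2 * logHeight₁ t := by
    have e : 1 - 2 * t - t ^ 2 = 2 - (1 + t) ^ 2 := by ring
    have := logHeight₁_sub_le (2 : K) ((1 + t) ^ 2)
    rw [logHeight₁_pow] at this
    push_cast at this
    rw [e]; linarith
  have kD : logHeight₁ (1 + 2 * t - t ^ 2) ≤ 3 * D + logHeight₁ (2 : K) + 2 * logHeight₁ t := by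
    have e : 1 + 2 * t - t ^ 2 = 2 - (1 - t) ^ 2 := by ring
    have := logHeight₁_sub_le (2 : K) ((1 - t) ^ 2)
    rw [logHeight₁_pow] at this
    push_cast at this
    rw [e]; linarith
  linarith

/-- ITER2 -/
theorem t_ITER2 (h1 : S_HT) (h2 : S_SUP) : S_ITER2 := by
  have _ := h1
  intro K _ _ S hS ε hε
  obtain ⟨c1, hc1⟩ := height_big (K := K)
  obtain ⟨c3, hc3⟩ := lrad_big (K := K) h2
  set ε' : ℝ := ε / (8 + 7 * ε) with hε'
  have hε'0 : 0 < ε' := by positivity
  obtain ⟨c2, hc2⟩ := hS ε' hε'0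
  have hd : (0 : ℝ) < 8 + 7 * ε := by positivity
  have e1 : 1 + ε' = (8 + 8 * ε) / (8 + 7 * ε) := by
    rw [hε']; field_simp; ring
  have e2 : 1 - 7 * ε' = 8 / (8 + 7 * ε) := by
    rw [hε']; field_simp; ring
  set C : ℝ := (8 + 7 * ε) / 8 * (c1 + c2 + (1 + ε') * c3) with hC
  refine ⟨|C| + |logHeight₁ (-1 : K)| + |c1|, ?_⟩
  intro t ht h0 h1'
  have hF := supp_fin h2 h0 h1'
  have hrad : 0 ≤ Real.log (lrad t) := by
    rw [log_lrad hF]
    exact Finset.sum_nonneg fun v _ => log_nn v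
  have hrad' : 0 ≤ (1 + ε) * Real.log (lrad t) := by positivity
  have b1 := abs_nonneg C
  have b2 := abs_nonneg (logHeight₁ (-1 : K))
  have b3 := abs_nonneg c1
  have b4 := le_abs_self C
  have b5 := le_abs_self (logHeight₁ (-1 : K))
  have b6 := le_abs_self c1
  by_cases hsq : t ^ 2 = 1
  · have htm : t = -1 := by
      rcases (sq_eq_one_iff.mp hsq) with h | h
      · exact absurd h h1'
      · exact h
    rw [htm] at hrad' ⊢
    linarith
  · have a1 := hc1 t hsq
    by_cases hb1 : big t = 1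
    · rw [hb1, logHeight₁_one] at a1
      have hh : 0 ≤ logHeight₁ t := zero_le_logHeight₁ t
      linarith
    · have hb0 : big t ≠ 0 := by
        unfold big
        exact pow_ne_zero _ (div_ne_zero (mul_ne_zero two_ne_zero h0)
          (sub_ne_zero.2 (Ne.symm hsq)))
      have a2 := hc2 (big t) ⟨t, ht, hsq, rfl⟩ hb0 hb1
      have a3 := hc3 t h0 hsq hb1
      have a4 : (1 + ε') * Real.log (lrad (big t)) ≤
          (1 + ε') * (Real.log (lrad t) + 7 * logHeight₁ t + c3) :=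
        mul_le_mul_of_nonneg_left a3 (by positivity)
      have a5 : (1 - 7 * ε') * logHeight₁ t ≤ (1 + ε') * Real.log (lrad t) +
          (c1 + c2 + (1 + ε') * c3) := by nlinarith
      rw [e2] at a5
      have hpos : 0 < (8 + 7 * ε) / 8 := by positivity
      have a6 := mul_le_mul_of_nonneg_left a5 hpos.le
      have a7 : (8 + 7 * ε) / 8 * (8 / (8 + 7 * ε) * logHeight₁ t) = logHeight₁ t := by
        field_simp
      have a8 : (8 + 7 * ε) / 8 * ((1 + ε') * Real.log (lrad t) + (c1 + c2 + (1 + ε') * c3)) =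
          (1 + ε) * Real.log (lrad t) + C := by
        rw [hC, mul_add, ← mul_assoc]
        congr 2
        rw [e1]
        field_simp
      rw [a7, a8] at a6
      linarith

end Pool.Agent.E8helper3.FT
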