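import Pool.Agent.E8helper15.FT.Stm

/-!
# Project FT, piece JV: the modular invariant at good primes
-/

set_option autoImplicit false

namespace Pool.Agent.E8helper3.FT

open NumberField IsDedekindDomain
open Pool.Agent.E8helper15.FT
open Pool.Agent.TH876.FH (GoodAt)

lemma le_exp_neg_one {x : WithZero (Multiplicative ℤ)} (h : x < 1) : x ≤ WithZero.exp (-1 : ℤ) := by
  rcases eq_or_ne x 0 with rfl | hx
  · exact zero_le'
  · rw [← WithZero.log_le_iff_le_exp hx]
    have h1 : x < WithZero.exp (0 : ℤ) := by simpa using h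
    rw [← WithZero.log_lt_iff_lt_exp hx] at h1
    omega

lemma exp_pow (n : ℕ) : (WithZero.exp (-1 : ℤ)) ^ n = WithZero.exp (-(n : ℤ)) := by
  rw [← WithZero.exp_nsmul]
  simp

/-- JV -/
theorem t_JV : S_JV := by
  intro K _ _ E hE v hG h6 l hl
  obtain ⟨C, h1, h2, h3, h4, h5, hΔ⟩ := hG
  set W := C • E with hW
  set val := v.valuation K with hval
  have hn : ∀ n : ℕ, val (n : K) ≤ 1 := by
    intro n
    have := v.valuation_le_one (K := K) (n : 𝓞 K)
    simpa using this
  -- the valuation ring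
  let O := val.integer
  have mO : ∀ x : K, val x ≤ 1 → x ∈ O := fun x hx => hx
  have nO : ∀ n : ℕ, (n : K) ∈ O := fun n => mO _ (hn n)
  have b2 : W.b₂ ∈ O := by
    unfold WeierstrassCurve.b₂
    exact O.add_mem (O.pow_mem (mO _ h1) 2) (O.mul_mem (nO 4) (mO _ h2))
  have b4 : W.b₄ ∈ O := by
    unfold WeierstrassCurve.b₄
    exact O.add_mem (O.mul_mem (nO 2) (mO _ h4)) (O.mul_mem (mO _ h1) (mO _ h3))
  have b6 : W.b₆ ∈ O := by
    unfold WeierstrassCurve.b₆
    exact O.add_mem (O.pow_mem (mO _ h3) 2) (O.mul_mem (nO 4) (mO _ h5))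
  have c4 : val W.c₄ ≤ 1 := by
    have : W.c₄ ∈ O := by
      unfold WeierstrassCurve.c₄
      exact O.sub_mem (O.pow_mem b2 2) (O.mul_mem (nO 24) b4)
    exact this
  have c6 : val W.c₆ ≤ 1 := by
    have : W.c₆ ∈ O := by
      unfold WeierstrassCurve.c₆
      exact O.sub_mem (O.add_mem (O.neg_mem (O.pow_mem b2 3))
        (O.mul_mem (O.mul_mem (nO 36) b2) b4)) (O.mul_mem (nO 216) b6)
    exact this
  -- the invariant
  have hu : (C.u⁻¹ : Kˣ).val ≠ 0 := (C.u⁻¹).ne_zero
  have hWΔ : W.Δ ≠ 0 := by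
    intro h0
    rw [h0] at hΔ
    simp at hΔ
  have hj : W.c₄ ^ 3 / W.Δ = 1728 * l := by
    rw [← hl, hW, WeierstrassCurve.variableChange_c₄, WeierstrassCurve.variableChange_Δ]
    have hu' : ((C.u⁻¹ : Kˣ) : K) ^ 12 ≠ 0 := pow_ne_zero _ hu
    rw [mul_pow, ← pow_mul]
    exact mul_div_mul_left _ _ hu'
  have hc4 : W.c₄ ^ 3 = 1728 * l * W.Δ := by
    rw [← hj]; field_simp
  have hc6 : W.c₆ ^ 2 = -(1728 * (1 - l) * W.Δ) := by
    have := W.c_relation
    linear_combination this + hc4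
  -- the constants
  have v2 : val (2 : K) = 1 := by
    have q2 : val (2 : K) ≤ 1 := by exact_mod_cast hn 2
    have q3 : val (3 : K) ≤ 1 := by exact_mod_cast hn 3
    have e : val (2 : K) * val (3 : K) = 1 := by
      rw [← map_mul]; norm_num; exact h6
    by_contra hne
    have q4 := lt_of_le_of_ne q2 hne
    have q5 : val (2 : K) * val (3 : K) < 1 :=
      lt_of_le_of_lt (mul_le_of_le_one_right' q3) q4
    exact absurd e q5.ne
  have v1728 : val (1728 : K) = 1 := by
    have e : (1728 : K) = 6 ^ 3 * 2 ^ 3 := by norm_num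
    rw [e, map_mul, map_pow, map_pow, v2, h6]; simp
  have hl4 : val W.c₄ ^ 3 = val l := by
    rw [← map_pow, hc4, map_mul, map_mul, v1728, hΔ, one_mul, mul_one]
  have hl6 : val W.c₆ ^ 2 = val (1 - l) := by
    rw [← map_pow, hc6, Valuation.map_neg, map_mul, map_mul, v1728, hΔ, one_mul, mul_one]
  refine ⟨?_, ?_, ?_⟩
  · rw [← hl4]
    exact pow_le_one' c4 3
  · intro hne
    rw [← hl4] at hne ⊢
    have hlt : val W.c₄ < 1 := by
      refine lt_of_le_of_ne c4 fun h => hne ?_
      rw [h, one_pow]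
    have := pow_le_pow_left' (le_exp_neg_one hlt) 3
    rw [exp_pow] at this
    exact_mod_cast this
  · intro hne
    rw [← hl6] at hne ⊢
    have hlt : val W.c₆ < 1 := by
      refine lt_of_le_of_ne c6 fun h => hne ?_
      rw [h, one_pow]
    have := pow_le_pow_left' (le_exp_neg_one hlt) 2
    rw [exp_pow] at this
    exact_mod_cast this

end Pool.Agent.E8helper3.FT
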